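import Pool.Agent.H8.UB.Targets

/-!
# Row ACL of the board ubd (helper8, MP_404602_al)

Closure functions for artin algebras.
-/

set_option autoImplicit false

namespace Pool.Agent.H13.UB

open Pool.Agent.H8.UB Pool.Agent.H56.UDs

theorem exists_quot {R : Type} [Ring R] {I J : Ideal R} (h : I ⋖ J) {a b : R} (ha : a ∈ J)
    (hb : b ∈ J) (hb' : b ∉ I) : ∃ t : R, a - t * b ∈ I := by
  have h1 : I < I ⊔ Ideal.span {b} := by
    refine lt_of_le_of_ne le_sup_left (fun h0 => hb' ?_)
    rw [h0]
    exact Submodule.mem_sup_right (Ideal.mem_span_singleton_self b)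
  have h2 : I ⊔ Ideal.span {b} ≤ J := by
    refine sup_le h.1.le ?_
    rw [Ideal.span_singleton_le_iff_mem]
    exact hb
  have h3 : I ⊔ Ideal.span {b} = J := by
    by_contra hne
    exact h.2 h1 (lt_of_le_of_ne h2 hne)
  rw [← h3] at ha
  obtain ⟨y, hy, z, hz, rfl⟩ := Submodule.mem_sup.1 ha
  obtain ⟨t, rfl⟩ := Submodule.mem_span_singleton.1 hz
  refine ⟨t, ?_⟩
  rw [smul_eq_mul, add_sub_cancel_right]
  exact hy

theorem pf_ACL : T_ACL := by
  rintro S _ ⟨K, hKc, hKa, hKf⟩
  classical
  have hKn : IsNoetherianRing K := inferInstance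
  obtain ⟨r, s, hs⟩ := Module.Finite.exists_fin (R := K) (M := S)
  have hco : ∀ x : S, ∃ f : Fin r → K, ∑ i, f i • s i = x := by
    intro x
    have hx : x ∈ Submodule.span K (Set.range s) := by
      rw [hs]
      trivial
    exact (Submodule.mem_span_range_iff_exists_fun K).1 hx
  choose f hf using hco
  obtain ⟨I, hI0, m, hIm, hcov⟩ := exists_covBy_seq_of_wellFoundedLT_wellFoundedGT (Ideal K)
  have ht : ∀ (j : ℕ) (a b : K), ∃ t : K, j < m → a ∈ I (j + 1) → b ∈ I (j + 1) → b ∉ I j →
      a - t * b ∈ I j := by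
    intro j a b
    by_cases h : j < m ∧ a ∈ I (j + 1) ∧ b ∈ I (j + 1) ∧ b ∉ I j
    · obtain ⟨t, ht⟩ := exists_quot (hcov j h.1) h.2.1 h.2.2.1 h.2.2.2
      exact ⟨t, fun _ _ _ _ => ht⟩
    · exact ⟨0, fun h1 h2 h3 h4 => absurd ⟨h1, h2, h3, h4⟩ h⟩
  choose t ht using ht
  set t' : ℕ → S → S → S := fun j a b =>
    if h : a ∈ K ∧ b ∈ K then ((t j ⟨a, h.1⟩ ⟨b, h.2⟩ : K) : S) else 0 with ht'
  set Φ : Set S → Set S := fun A => (Set.range s ∪ ⋃ i, (fun x => ((f x i : K) : S)) '' A) ∪
    ⋃ j, Set.image2 (t' j) A A with hΦ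
  refine ⟨Φ, ?_, ?_⟩
  · intro A hA
    refine Set.Countable.union (Set.Countable.union (Set.countable_range s) ?_) ?_
    · exact Set.countable_iUnion (fun i => hA.image _)
    · exact Set.countable_iUnion (fun j => hA.image2 hA _)
  · intro S₀ hS₀
    have hsS : ∀ i, s i ∈ S₀ := by
      intro i
      have h1 := hS₀ ∅ (by simp)
      exact h1 (Or.inl (Or.inl ⟨i, rfl⟩))
    have hfS : ∀ x ∈ S₀, ∀ i, ((f x i : K) : S) ∈ S₀ := by
      intro x hx i
      have h1 := hS₀ {x} (by simpa using hx)
      refine h1 (Or.inl (Or.inr ?_))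
      rw [Set.mem_iUnion]
      exact ⟨i, x, by simp, rfl⟩
    have htS : ∀ j, ∀ a b : K, (a : S) ∈ S₀ → (b : S) ∈ S₀ → ((t j a b : K) : S) ∈ S₀ := by
      intro j a b ha hb
      have h1 := hS₀ {(a : S), (b : S)} (by
        intro y hy
        rw [Finset.coe_insert, Finset.coe_singleton] at hy
        rcases hy with rfl | rfl
        · exact ha
        · exact hb)
      refine h1 (Or.inr ?_)
      rw [Set.mem_iUnion]
      refine ⟨j, Set.mem_image2.2 ⟨(a : S), by simp, (b : S), by simp, ?_⟩⟩
      simp only [ht']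
      rw [dif_pos ⟨a.2, b.2⟩]
    set K' : Subring S₀ := K.comap S₀.subtype with hK'
    have hmem : ∀ x : S₀, x ∈ K' ↔ (x : S) ∈ K := fun x => Iff.rfl
    have hcent : K' ≤ Subring.center S₀ := by
      intro x hx
      rw [Subring.mem_center_iff]
      intro y
      have h1 := hKc ((hmem x).1 hx)
      rw [Subring.mem_center_iff] at h1
      exact Subtype.ext (h1 y)
    -- the elements of `K'` as elements of `K`
    set ι : K' → K := fun x => ⟨((x : S₀) : S), x.2⟩ with hι
    have hι0 : ∀ x : K', ι x = 0 → x = 0 := by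
      intro x hx
      have h1 : ((x : S₀) : S) = 0 := congrArg Subtype.val hx
      exact Subtype.ext (Subtype.ext h1)
    -- the dimension function
    set D : Ideal K' → Finset (Fin m) := fun J =>
      Finset.univ.filter (fun j => ∃ a ∈ J, ι a ∈ I (j + 1) ∧ ι a ∉ I j) with hD
    have hmono : ∀ J J' : Ideal K', J ≤ J' → D J ≤ D J' := by
      intro J J' h j hj
      rw [Finset.mem_filter] at hj ⊢
      obtain ⟨-, a, ha, h1⟩ := hj
      exact ⟨Finset.mem_univ _, a, h ha, h1⟩
    have hinj : ∀ J J' : Ideal K', J ≤ J' → D J = D J' → J = J' := by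
      intro J J' hle hDD
      refine le_antisymm hle ?_
      have key : ∀ j, j ≤ m → ∀ x ∈ J', ι x ∈ I j → x ∈ J := by
        intro j
        induction j with
        | zero =>
          intro _ x _ hx
          have h0 : I 0 = ⊥ := hI0.eq_bot
          rw [h0, Ideal.mem_bot] at hx
          rw [hι0 x hx]
          exact J.zero_mem
        | succ j ih =>
          intro hj x hxJ hx
          by_cases hxj : ι x ∈ I j
          · exact ih (by omega) x hxJ hxj
          · have hjD : (⟨j, by omega⟩ : Fin m) ∈ D J' := by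
              rw [Finset.mem_filter]
              exact ⟨Finset.mem_univ _, x, hxJ, hx, hxj⟩
            rw [← hDD, Finset.mem_filter] at hjD
            obtain ⟨-, b, hbJ, hb1, hb2⟩ := hjD
            have hq := ht j (ι x) (ι b) (by omega) hx hb1 hb2
            have htm := htS j (ι x) (ι b) (x : S₀).2 (b : S₀).2
            set q : K' := ⟨⟨((t j (ι x) (ι b) : K) : S), htm⟩, (t j (ι x) (ι b)).2⟩ with hqdef
            have hxq : x - q * b ∈ J := by
              refine ih (by omega) _ (J'.sub_mem hxJ (J'.mul_mem_left q (hle hbJ))) ?_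
              exact hq
            have := J.add_mem hxq (J.mul_mem_left q hbJ)
            rwa [sub_add_cancel] at this
      intro x hx
      have hm : I m = ⊤ := hIm.eq_top
      exact key m le_rfl x hx (by rw [hm]; trivial)
    have hstrict : StrictMono D := by
      intro J J' h
      refine lt_of_le_of_ne (hmono J J' h.le) (fun h0 => h.ne (hinj J J' h.le h0))
    have hart : IsArtinianRing K' := hstrict.wellFoundedLT
    have hnoe : IsNoetherianRing K' := by
      rw [isNoetherianRing_iff, isNoetherian_iff']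
      exact hstrict.wellFoundedGT
    have hfin : Module.Finite K' S₀ := by
      refine ⟨⟨Finset.univ.image (fun i => (⟨s i, hsS i⟩ : S₀)), ?_⟩⟩
      rw [eq_top_iff]
      intro x _
      have hx : x = ∑ i, (⟨⟨((f (x : S) i : K) : S), hfS x x.2 i⟩, (f (x : S) i).2⟩ : K') •
          (⟨s i, hsS i⟩ : S₀) := by
        apply Subtype.ext
        have h1 := hf (x : S)
        conv_lhs => rw [← h1]
        rw [AddSubmonoidClass.coe_finsetSum]
        rfl
      rw [hx]
      refine Submodule.sum_mem _ (fun i _ => Submodule.smul_mem _ _ (Submodule.subset_span ?_))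
      rw [Finset.coe_image]
      exact ⟨i, by simp, rfl⟩
    refine ⟨⟨K', hcent, hart, hfin⟩, ?_⟩
    have h1 : IsNoetherian K' S₀ := inferInstance
    exact isNoetherian_of_tower K' h1

end Pool.Agent.H13.UB
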