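import Pool.Agent.H8.UB.Targets

/-!
# Row COL of the board ubd (helper8, MP_404602_al)

The collapse of a set of ordinals.
-/

set_option autoImplicit false

namespace Pool.Agent.H13.UB

open Pool.Agent.H8.UB Pool.Agent.H56.UDs

/-- the collapse -/
noncomputable def cpi (B : Set Ordinal.{0}) : Ordinal.{0} → Ordinal.{0} :=
  WellFounded.fix (r := ((· < ·) : Ordinal.{0} → Ordinal.{0} → Prop)) wellFounded_lt
    (fun β ih => ⨆ γ : {γ : Ordinal.{0} // γ ∈ B ∧ γ < β}, (ih γ.1 γ.2.2 + 1))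

theorem cpi_eq (B : Set Ordinal.{0}) (β : Ordinal.{0}) :
    cpi B β = ⨆ γ : {γ : Ordinal.{0} // γ ∈ B ∧ γ < β}, (cpi B γ.1 + 1) := by
  unfold cpi
  rw [WellFounded.fix_eq]

instance (B : Set Ordinal.{0}) (β : Ordinal.{0}) :
    Small.{0} {γ : Ordinal.{0} // γ ∈ B ∧ γ < β} :=
  small_of_injective (f := fun γ => (⟨γ.1, γ.2.2⟩ : Set.Iio β)) (fun a b h => by
    have := congrArg Subtype.val h
    exact Subtype.ext this)

theorem cpi_lt {B : Set Ordinal.{0}} {β γ : Ordinal.{0}} (hβ : β ∈ B) (h : β < γ) :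
    cpi B β < cpi B γ := by
  have h1 := Ordinal.le_iSup (fun γ' : {γ' : Ordinal.{0} // γ' ∈ B ∧ γ' < γ} => cpi B γ'.1 + 1)
    ⟨β, hβ, h⟩
  rw [← cpi_eq] at h1
  exact (Order.lt_add_one_iff.2 le_rfl).trans_le h1

theorem cpi_surj {B : Set Ordinal.{0}} (β : Ordinal.{0}) :
    ∀ γ', γ' < cpi B β → ∃ γ ∈ B, γ < β ∧ cpi B γ = γ' := by
  induction β using WellFoundedLT.induction with
  | ind β ih =>
    intro γ' hγ'
    rw [cpi_eq, Ordinal.lt_iSup_iff] at hγ'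
    obtain ⟨⟨γ, hγB, hγβ⟩, hlt⟩ := hγ'
    rcases (Order.lt_add_one_iff.1 hlt).lt_or_eq with h | h
    · obtain ⟨δ, hδB, hδγ, hδ⟩ := ih γ hγβ γ' h
      exact ⟨δ, hδB, hδγ.trans hγβ, hδ⟩
    · exact ⟨γ, hγB, hγβ, h.symm⟩

theorem cpi_le (B : Set Ordinal.{0}) (β : Ordinal.{0}) : cpi B β ≤ β := by
  induction β using WellFoundedLT.induction with
  | ind β ih =>
    rw [cpi_eq, Ordinal.iSup_le_iff]
    rintro ⟨γ, hγB, hγβ⟩
    exact Order.add_one_le_of_lt ((ih γ hγβ).trans_lt hγβ)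

theorem le_cpi {B : Set Ordinal.{0}} (γ : Ordinal.{0}) :
    ∀ β, (∀ δ, δ < γ → δ ∈ B) → γ ≤ β → γ ≤ cpi B β := by
  induction γ using WellFoundedLT.induction with
  | ind γ ih =>
    intro β hB hγβ
    refine le_of_forall_lt (fun δ hδ => ?_)
    have h1 := ih δ hδ δ (fun ε hε => hB ε (hε.trans hδ)) le_rfl
    exact h1.trans_lt (cpi_lt (hB δ hδ) (hδ.trans_le hγβ))

theorem pf_COL : T_COL := by
  intro B
  refine ⟨cpi B, fun β hβ γ _ h => cpi_lt hβ h, fun β _ => cpi_surj β, cpi_le B, ?_,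
    fun γ β h1 h2 => le_cpi γ β h1 h2⟩
  intro hBc β _
  have h1 : (Set.Iio (cpi B β)).Countable := by
    refine (hBc.image (cpi B)).mono ?_
    intro γ' hγ'
    obtain ⟨γ, hγ, -, h⟩ := cpi_surj β γ' hγ'
    exact ⟨γ, hγ, h⟩
  have h2 : Cardinal.mk (Set.Iio (cpi B β)) ≤ Cardinal.aleph0 := by
    rw [Cardinal.mk_le_aleph0_iff]
    exact h1.to_subtype
  rw [Cardinal.mk_Iio_ordinal] at h2
  exact Cardinal.lift_le_aleph0.1 h2

end Pool.Agent.H13.UB
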