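import Pool.Agent.H8.UB.Targets

/-!
# Row RIG of the board ubd (helper8, MP_404602_al)

Isomorphic rings have the same uniserial dimension.
-/

set_option autoImplicit false

open CategoryTheory

namespace Pool.Agent.H13.UB

open Pool.Agent.H8.UB Pool.Agent.H56.UDs

variable {S T : Type} [Ring S] [Ring T]

/-- restriction of scalars along an isomorphism -/
def RM (_ : S ≃+* T) (M : Type) : Type := M

instance (e : S ≃+* T) (M : Type) [AddCommGroup M] : AddCommGroup (RM e M) :=
  inferInstanceAs (AddCommGroup M)

instance (e : S ≃+* T) (M : Type) [AddCommGroup M] [Module T M] : Module S (RM e M) :=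
  Module.compHom M (e : S →+* T)

theorem RM_smul (e : S ≃+* T) (M : Type) [AddCommGroup M] [Module T M] (s : S) (x : RM e M) :
    s • x = (show RM e M from (e s • (show M from x))) := rfl

/-- a linear map, restricted -/
def rmap (e : S ≃+* T) {M N : Type} [AddCommGroup M] [AddCommGroup N] [Module T M] [Module T N]
    (f : M →ₗ[T] N) : RM e M →ₗ[S] RM e N where
  toFun := f
  map_add' x y := f.map_add x y
  map_smul' s x := f.map_smul (e s) x

/-- back -/
def rmap' (e : S ≃+* T) {M N : Type} [AddCommGroup M] [AddCommGroup N] [Module T M] [Module T N]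
    (f : RM e M →ₗ[S] RM e N) : M →ₗ[T] N where
  toFun := f
  map_add' x y := f.map_add x y
  map_smul' t x := by
    have h := f.map_smul (e.symm t) x
    rw [RM_smul, RM_smul, RingEquiv.apply_symm_apply] at h
    exact h

instance (e : S ≃+* T) (M : Type) [AddCommGroup M] [Module T M] [Module.Finite T M] :
    Module.Finite S (RM e M) := by
  obtain ⟨F, hF⟩ := (Module.Finite.fg_top : (⊤ : Submodule T M).FG)
  obtain ⟨W, hW⟩ : ∃ W : Submodule S (RM e M),
      W = Submodule.span S (show Set (RM e M) from (F : Set M)) := ⟨_, rfl⟩
  refine ⟨⟨F, ?_⟩⟩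
  have key : ∀ x : M, x ∈ Submodule.span T (F : Set M) →
      (show RM e M from x) ∈ W := by
    intro x hx
    induction hx using Submodule.span_induction with
    | mem y hy => rw [hW]; exact Submodule.subset_span hy
    | zero => exact W.zero_mem
    | add y z _ _ hy hz => exact W.add_mem hy hz
    | smul t y _ hy =>
      have h := W.smul_mem (e.symm t) hy
      rw [RM_smul, RingEquiv.apply_symm_apply] at h
      exact h
  have hW2 : W = ⊤ := by
    rw [eq_top_iff]
    intro x _
    exact key x (by rw [hF]; trivial)
  rw [hW] at hW2
  exact hW2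

/-- the functor -/
noncomputable def res (e : S ≃+* T) : FGModuleCat.{0} T ⥤ FGModuleCat.{0} S where
  obj M := FGModuleCat.of S (RM e M)
  map f := FGModuleCat.ofHom (rmap e f.hom.hom)
  map_id _ := rfl
  map_comp _ _ := rfl

instance (e : S ≃+* T) : (res e).Additive where
  map_add := rfl

instance (e : S ≃+* T) : (res e).Faithful where
  map_injective {M N f g} h := by
    apply FGModuleCat.hom_ext
    apply LinearMap.ext
    intro x
    exact congrArg (fun t => t.hom.hom x) h

instance (e : S ≃+* T) : (res e).Full where
  map_surjective {M N} f := by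
    refine ⟨FGModuleCat.ofHom (rmap' e (M := M) (N := N) f.hom.hom), ?_⟩
    apply FGModuleCat.hom_ext
    apply LinearMap.ext
    intro x
    rfl

/-- the identity -/
def resIso (e : S ≃+* T) (N : Type) [AddCommGroup N] [Module S N] :
    RM e (RM e.symm N) ≃ₗ[S] N where
  toFun x := x
  invFun x := x
  left_inv _ := rfl
  right_inv _ := rfl
  map_add' _ _ := rfl
  map_smul' s x := by
    rw [RM_smul]
    have h : ∀ y : RM e.symm N, (e s • y : RM e.symm N) = (show RM e.symm N from
        (s • (show N from y))) := by
      intro y
      rw [RM_smul, RingEquiv.symm_apply_apply]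
    exact h x

instance (e : S ≃+* T) : (res e).EssSurj where
  mem_essImage N := ⟨FGModuleCat.of T (RM e.symm N),
    ⟨LinearEquiv.toFGModuleCatIso (resIso e N)⟩⟩

instance (e : S ≃+* T) : (res e).IsEquivalence where

theorem pf_RIG : T_RIG := by
  intro S T _ _ e
  have h : (res e).asEquivalence.functor.Additive := (inferInstance : (res e).Additive)
  exact (udim_eqv (res e).asEquivalence).symm

end Pool.Agent.H13.UB
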